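import Mathlib

/-! SF-1: Parseval on `ZMod m`. -/

open Finset

namespace Pool.Agent.Helper94.SF

theorem parseval {m : ℕ} [NeZero m] (F : ZMod m → ℝ) :
    ∑ j : ZMod m, ‖∑ y : ZMod m, ZMod.stdAddChar (j * y) * (F y : ℂ)‖ ^ 2
      = (m : ℝ) * ∑ y : ZMod m, F y ^ 2 := by
  have h1 : ∀ j : ZMod m, ((‖∑ y : ZMod m, ZMod.stdAddChar (j * y) * (F y : ℂ)‖ ^ 2 : ℝ) : ℂ) =
      ∑ y : ZMod m, ∑ z : ZMod m, ((F y : ℂ) * (F z : ℂ)) * ZMod.stdAddChar (j * (y - z)) := by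
    intro j
    rw [Complex.ofReal_pow, ← Complex.mul_conj', map_sum, Finset.sum_mul_sum]
    refine Finset.sum_congr rfl fun y _ => Finset.sum_congr rfl fun z _ => ?_
    rw [map_mul (starRingEnd ℂ), Complex.conj_ofReal, ← AddChar.map_neg_eq_conj, mul_sub,
      sub_eq_add_neg, AddChar.map_add_eq_mul]
    ring
  have h2 : ((∑ j : ZMod m, ‖∑ y : ZMod m, ZMod.stdAddChar (j * y) * (F y : ℂ)‖ ^ 2 : ℝ) : ℂ) =
      (((m : ℝ) * ∑ y : ZMod m, F y ^ 2 : ℝ) : ℂ) := by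
    rw [Complex.ofReal_sum]
    simp only [h1]
    rw [Finset.sum_comm]
    push_cast
    rw [Finset.mul_sum]
    refine Finset.sum_congr rfl fun y _ => ?_
    rw [Finset.sum_comm]
    have h3 : ∀ z : ZMod m, ∑ j : ZMod m, ((F y : ℂ) * (F z : ℂ)) *
        ZMod.stdAddChar (j * (y - z)) = if z = y then (m : ℂ) * (F y : ℂ) ^ 2 else 0 := by
      intro z
      rw [← Finset.mul_sum, AddChar.sum_mulShift (y - z) (ZMod.isPrimitive_stdAddChar m)]
      by_cases h : z = y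
      · subst h
        simp only [sub_self, if_true, ZMod.card]
        ring
      · rw [if_neg (sub_ne_zero.2 (Ne.symm h)), if_neg h]
        simp
    simp only [h3]
    simp
  exact_mod_cast h2

end Pool.Agent.Helper94.SF
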